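import Pool.Agent.ZES.StmtsF

namespace Pool.Agent.Helper91_ZES.PRT

open Pool.Agent.ZES MeasureTheory
open scoped Pointwise

theorem result : PrtStmt := by
  intro g H hH hper a
  have hFset : ZSpan.fundamentalDomain (Pi.basisFun ℝ (Fin g))
      = Set.univ.pi (fun _ : Fin g => Set.Ico (0 : ℝ) 1) := ZSpan.fundamentalDomain_pi_basisFun
  have hFD := ZSpan.isAddFundamentalDomain' (Pi.basisFun ℝ (Fin g))
    (volume : Measure (Fin g → ℝ))
  have hFD2 := hFD.vadd_of_comm (G' := Fin g → ℝ) a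
  have hae : (Set.univ.pi (fun _ : Fin g => Set.Ico (0 : ℝ) 1)) =ᵐ[volume]
      (Set.Icc (0 : Fin g → ℝ) 1) := Measure.univ_pi_Ico_ae_eq_Icc
  have hinv : ∀ (v : (Submodule.span ℤ (Set.range (Pi.basisFun ℝ (Fin g)))).toAddSubgroup) (x : Fin g → ℝ),
      H (v +ᵥ x) = H x := by
    rintro ⟨v, hv⟩ x
    have hv2 : ∃ p : Fin g → ℤ, ∀ i, v i = (p i : ℝ) := by
      have h3 := (Module.Basis.mem_span_iff_repr_mem ℤ (Pi.basisFun ℝ (Fin g)) v).1 hv
      choose p hp using h3
      refine ⟨p, fun i => ?_⟩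
      have h4 := hp i
      simp only [Pi.basisFun_repr] at h4
      rw [← h4]
      simp
    obtain ⟨p, hp⟩ := hv2
    have h5 : ((⟨v, hv⟩ : (Submodule.span ℤ (Set.range (Pi.basisFun ℝ (Fin g)))).toAddSubgroup) +ᵥ x)
        = fun i => x i + (p i : ℝ) := by
      funext i
      show v i + x i = _
      rw [hp i, add_comm]
    rw [h5]
    exact hper x p
  have hcount : Countable (Submodule.span ℤ (Set.range (Pi.basisFun ℝ (Fin g)))).toAddSubgroup :=
    inferInstanceAs (Countable (Submodule.span ℤ (Set.range (Pi.basisFun ℝ (Fin g)))))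
  have h1 := hFD.setIntegral_eq hFD2 (f := H) hinv
  have h2 : ∫ x in (a +ᵥ ZSpan.fundamentalDomain (Pi.basisFun ℝ (Fin g))), H x
      = ∫ x in ZSpan.fundamentalDomain (Pi.basisFun ℝ (Fin g)), H (x + a) := by
    have h3 := (measurePreserving_add_right (volume : Measure (Fin g → ℝ)) a).setIntegral_preimage_emb
      (measurableEmbedding_addRight a) H (a +ᵥ ZSpan.fundamentalDomain (Pi.basisFun ℝ (Fin g)))
    rw [← h3]
    have h4 : (fun x : Fin g → ℝ => x + a) ⁻¹' (a +ᵥ ZSpan.fundamentalDomain (Pi.basisFun ℝ (Fin g)))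
        = ZSpan.fundamentalDomain (Pi.basisFun ℝ (Fin g)) := by
      ext x
      simp only [Set.mem_preimage]
      rw [Set.mem_vadd_set_iff_neg_vadd_mem]
      have h6 : -a +ᵥ (x + a) = x := by
        simp [vadd_eq_add]
      rw [h6]
    rw [h4]
  calc ∫ t in Set.Icc (0 : Fin g → ℝ) 1, H (t + a)
      = ∫ t in ZSpan.fundamentalDomain (Pi.basisFun ℝ (Fin g)), H (t + a) := by
        rw [hFset]
        exact (setIntegral_congr_set hae).symm
    _ = ∫ t in ZSpan.fundamentalDomain (Pi.basisFun ℝ (Fin g)), H t := by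
        rw [← h2, ← h1]
    _ = ∫ t in Set.Icc (0 : Fin g → ℝ) 1, H t := by
        rw [hFset]
        exact setIntegral_congr_set hae

end Pool.Agent.Helper91_ZES.PRT
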