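import Pool.Agent.ZES.StmtsC

/-!
# Squad ZES, row PWM: images of forms
-/

set_option autoImplicit false

namespace Pool.Agent.ZES.H91

open Pool.Agent.ZES
open scoped BigOperators

theorem pwm : PwmStmt := by
  intro M K R _ _ _ v m
  rw [← MvPolynomial.homogeneousSubmodule_one_pow, Submodule.map_pow,
    MvPolynomial.homogeneousSubmodule_one_eq_span_X, Submodule.map_span]
  congr 2
  ext x
  constructor
  · rintro ⟨y, ⟨i, rfl⟩, rfl⟩
    exact ⟨i, by simp⟩
  · rintro ⟨i, rfl⟩
    exact ⟨MvPolynomial.X i, ⟨i, rfl⟩, by simp⟩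

end Pool.Agent.ZES.H91
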