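import Pool.Agent.ZES.StmtsF

namespace Pool.Agent.Helper91_ZES.RML

open Pool.Agent.ZES
open Pool.Agent.THS
open scoped BigOperators

theorem mul_le {g : ℕ} (τ : Matrix (Fin g) (Fin g) ℂ) (a b : ℕ) :
    RR τ a * RR τ b ≤ RR τ (a + b) := by
  rw [Submodule.mul_le]
  rintro F ⟨hF1, hF2⟩ G ⟨hG1, hG2⟩
  refine ⟨hF1.mul hG1, fun x p q => ?_⟩
  show F (x + pr τ p q) * G (x + pr τ p q) = _ * (F x * G x)
  rw [hF2 x p q, hG2 x p q]
  have h1 : (-(Real.pi * Complex.I * ((a + b : ℕ) : ℂ)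
        * ∑ i, ∑ j, (q i : ℂ) * τ i j * (q j : ℂ))
      - 2 * Real.pi * Complex.I * ((a + b : ℕ) : ℂ) * ∑ i, (q i : ℂ) * x i)
      = (-(Real.pi * Complex.I * (a : ℂ)
        * ∑ i, ∑ j, (q i : ℂ) * τ i j * (q j : ℂ))
      - 2 * Real.pi * Complex.I * (a : ℂ) * ∑ i, (q i : ℂ) * x i)
      + (-(Real.pi * Complex.I * (b : ℂ)
        * ∑ i, ∑ j, (q i : ℂ) * τ i j * (q j : ℂ))
      - 2 * Real.pi * Complex.I * (b : ℂ) * ∑ i, (q i : ℂ) * x i) := by
    push_cast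
    ring
  rw [h1, Complex.exp_add]
  ring

theorem result (hT : SZG.TdfStmt) (hU : TouStatement) : RmlStmt := by
  intro g τ hτ
  refine ⟨fun a b => mul_le τ a b, ?_⟩
  have hsg : Siegel ((2 : ℂ) • τ) := by
    refine ⟨?_, ?_⟩
    · rw [Matrix.transpose_smul, hτ.1]
    · have h0 : ((2 : ℂ) • τ).map Complex.im = τ.map Complex.im + τ.map Complex.im := by
        ext i j
        simp [Matrix.map_apply, Matrix.add_apply, Matrix.smul_apply, two_mul]
      rw [h0]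
      exact hτ.2.add hτ.2
  have hmem : ∀ c : Fin g → ZMod 2, Thc τ c ∈ RR τ 2 := by
    intro c
    refine ⟨?_, fun x p q => ?_⟩
    · have h2 := hT g ((2 : ℂ) • τ) hsg (hv c)
      have h3 : Differentiable ℂ (fun x : Fin g → ℂ => fun i => 2 * x i) := by
        fun_prop
      exact h2.comp h3
    · have h4 := (hU g τ hτ).2.2.2.1 c x p q
      have h5 : (fun i => x i + ((p i : ℂ) + ∑ j, τ i j * (q j : ℂ))) = x + pr τ p q := by
        funext i
        rfl
      rw [h5] at h4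
      rw [h4]
      congr 2
      push_cast
      ring
  rintro e he h2 x
  obtain ⟨f, hf⟩ := he
  obtain ⟨c, hc⟩ := (hU g τ hτ).2.2.2.2.1 x
  have hpow : ∀ m : ℕ, (Thc τ c) ^ (m + 1) ∈ RR τ (2 * (m + 1)) := by
    intro m
    induction m with
    | zero => simpa using hmem c
    | succ m ih =>
      rw [pow_succ]
      have := mul_le τ (2 * (m + 1)) 2 (Submodule.mul_mem_mul ih (hmem c))
      exact this
  obtain ⟨m, rfl⟩ : ∃ m, f = m + 1 := ⟨f - 1, by omega⟩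
  refine ⟨(Thc τ c) ^ (m + 1), ?_, ?_⟩
  · rw [hf, ← two_mul]
    exact hpow m
  · rw [Pi.pow_apply]
    exact pow_ne_zero _ hc

end Pool.Agent.Helper91_ZES.RML
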